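import Mathlib

namespace Pool.Agent.Results.MP_086516_nt.TorusPoint

open Polynomial Finset

/-- The coefficient vector of `ζ_k ^ r` in the basis `1, ζ_k, …, ζ_k^(φ(k)-1)`: the coefficients of
the remainder of `X ^ r` on division by the `k`-th cyclotomic polynomial. -/
noncomputable def expVec (k r : ℕ) : Fin (Nat.totient k) → ℤ :=
  fun j => ((X : ℤ[X]) ^ r %ₘ cyclotomic k ℤ).coeff j

/-- The set `A_k` of the coefficient vectors of the `k`-th roots of unity. -/
noncomputable def A (k : ℕ) : Finset (Fin (Nat.totient k) → ℤ) :=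
  (Finset.range k).image (expVec k)

/-- The Laurent polynomial `F_k`, as a function. -/
noncomputable def F (k : ℕ) (x : Fin (Nat.totient k) → ℂ) : ℂ :=
  ∑ a ∈ A k, ∏ j, x j ^ (a j)

/-- shift operator on sequences -/
noncomputable def E : Module.End ℂ (ℕ → ℂ) := LinearMap.funLeft ℂ ℂ Nat.succ

lemma E_pow (i : ℕ) (f : ℕ → ℂ) (r : ℕ) : (E ^ i) f r = f (r + i) := by
  induction i generalizing r with
  | zero => simp
  | succ i ih =>
    rw [pow_succ', Module.End.mul_apply]
    change (E ^ i) f (r + 1) = _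
    rw [ih]; congr 1; ring

lemma aeval_E (P : ℂ[X]) (f : ℕ → ℂ) (r : ℕ) :
    (aeval E P) f r = ∑ i ∈ range (P.natDegree + 1), P.coeff i * f (r + i) := by
  rw [aeval_eq_sum_range, LinearMap.sum_apply, Finset.sum_apply]
  refine Finset.sum_congr rfl ?_
  intro i _
  rw [LinearMap.smul_apply, Pi.smul_apply, E_pow, smul_eq_mul]

/-- annihilator ideal -/
noncomputable def annIdeal (f : ℕ → ℂ) : Ideal ℂ[X] where
  carrier := {P | (aeval E P) f = 0}
  add_mem' := by
    intro a b ha hb
    simp only [Set.mem_ofPred_eq] at *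
    rw [map_add, LinearMap.add_apply, ha, hb, add_zero]
  zero_mem' := by simp
  smul_mem' := by
    intro c x hx
    simp only [Set.mem_ofPred_eq, smul_eq_mul] at *
    rw [map_mul, Module.End.mul_apply, hx, map_zero]

lemma cyclotomic_mem (k : ℕ) (hk : 0 < k) (f : ℕ → ℂ) (hper : ∀ r, f (r + k) = f r)
    (hline : ∀ q, q.Prime → q ∣ k → ∀ r, ∑ j ∈ range q, f (r + j * (k / q)) = 0) :
    (aeval E (cyclotomic k ℂ)) f = 0 := by
  have h1 : (X ^ k - 1 : ℂ[X]) ∈ annIdeal f := by
    change (aeval E (X ^ k - 1 : ℂ[X])) f = 0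
    ext r
    simp only [map_sub, map_pow, aeval_X, map_one, LinearMap.sub_apply, Pi.sub_apply,
      Module.End.one_apply, Pi.zero_apply]
    rw [E_pow, hper, sub_self]
  have h2 : ∀ q, q.Prime → q ∣ k → (∑ j ∈ range q, X ^ (j * (k / q)) : ℂ[X]) ∈ annIdeal f := by
    intro q hq hqk
    change (aeval E (∑ j ∈ range q, X ^ (j * (k / q)) : ℂ[X])) f = 0
    ext r
    simp only [map_sum, map_pow, aeval_X, LinearMap.sum_apply, Finset.sum_apply, Pi.zero_apply,
      E_pow]
    exact hline q hq hqk r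
  obtain ⟨g, hg⟩ := (IsPrincipalIdealRing.principal (annIdeal f)).principal
  have hdvd : ∀ P : ℂ[X], P ∈ annIdeal f ↔ g ∣ P := by
    intro P
    rw [hg]
    exact Ideal.mem_span_singleton
  have h3 := (hdvd _).mp h1
  rw [← prod_cyclotomic_eq_X_pow_sub_one hk, ← Nat.cons_self_properDivisors hk.ne',
    Finset.prod_cons] at h3
  have hcop : IsCoprime g (∏ i ∈ k.properDivisors, cyclotomic i ℂ) := by
    refine (Polynomial.isCoprime_iff_aeval_ne_zero_of_isAlgClosed (k := ℂ) ℂ _ _).mpr ?_
    intro a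
    by_contra hcon
    push Not at hcon
    obtain ⟨hga, hpa⟩ := hcon
    rw [map_prod, Finset.prod_eq_zero_iff] at hpa
    obtain ⟨d, hd, hda⟩ := hpa
    rw [Nat.mem_properDivisors] at hd
    have hd0 : 0 < d := Nat.pos_of_dvd_of_pos hd.1 hk
    have ha : a ^ d = 1 := by
      have : (cyclotomic d ℂ) ∣ X ^ d - 1 := cyclotomic.dvd_X_pow_sub_one d ℂ
      obtain ⟨u, hu⟩ := this
      have h4 : aeval a (X ^ d - 1 : ℂ[X]) = 0 := by rw [hu, map_mul, hda, zero_mul]
      simpa [sub_eq_zero] using h4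
    obtain ⟨e, he⟩ := hd.1
    have he1 : e ≠ 1 := by rintro rfl; omega
    obtain ⟨q, hq, hqe⟩ := Nat.exists_prime_and_dvd he1
    obtain ⟨e', he'⟩ := hqe
    have hqk : q ∣ k := ⟨d * e', by rw [he, he']; ring⟩
    have hkq : k / q = d * e' := by
      rw [he, he']
      rw [show d * (q * e') = q * (d * e') by ring]
      exact Nat.mul_div_cancel_left _ hq.pos
    obtain ⟨v, hv⟩ := (hdvd _).mp (h2 q hq hqk)
    have h5 : aeval a (∑ j ∈ range q, X ^ (j * (k / q)) : ℂ[X]) = 0 := by
      rw [hv, map_mul, hga, zero_mul]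
    have h6 : ∀ j, a ^ (j * (k / q)) = 1 := by
      intro j
      rw [hkq, show j * (d * e') = d * (j * e') by ring, pow_mul, ha, one_pow]
    simp [h6] at h5
    exact hq.ne_zero h5
  have h7 : g ∣ cyclotomic k ℂ := hcop.dvd_of_dvd_mul_right h3
  exact (hdvd _).mpr h7

lemma functional (k : ℕ) (f : ℕ → ℂ) (hf : (aeval E (cyclotomic k ℂ)) f = 0) (r : ℕ) :
    ∑ j : Fin (Nat.totient k), (expVec k r j : ℂ) * f j = f r := by
  have hmonic : (cyclotomic k ℤ).Monic := cyclotomic.monic k ℤ
  have h1 := modByMonic_add_div ((X : ℤ[X]) ^ r) (q := cyclotomic k ℤ)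
  have h2 : ((X : ℤ[X]) ^ r %ₘ cyclotomic k ℤ).map (Int.castRingHom ℂ)
      + cyclotomic k ℂ * ((X : ℤ[X]) ^ r /ₘ cyclotomic k ℤ).map (Int.castRingHom ℂ) = X ^ r := by
    have := congrArg (Polynomial.map (Int.castRingHom ℂ)) h1
    rw [Polynomial.map_add, Polynomial.map_mul, map_cyclotomic, Polynomial.map_pow, map_X] at this
    exact this
  have h3 := congrArg (fun P => (aeval E P) f 0) h2
  simp only [map_add, map_pow, aeval_X, LinearMap.add_apply, Pi.add_apply] at h3
  rw [E_pow, mul_comm, map_mul, Module.End.mul_apply, hf, map_zero] at h3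
  simp only [Pi.zero_apply, add_zero, zero_add] at h3
  rw [← h3, aeval_E]
  set R := ((X : ℤ[X]) ^ r %ₘ cyclotomic k ℤ) with hR
  have hdeg : R.degree < (Nat.totient k : ℕ) := by
    have := degree_modByMonic_lt ((X : ℤ[X]) ^ r) hmonic
    rwa [degree_cyclotomic] at this
  change ∑ j : Fin (Nat.totient k), ((R.coeff (j : ℕ) : ℤ) : ℂ) * f (j : ℕ) = _
  rw [Fin.sum_univ_eq_sum_range (fun j => ((R.coeff j : ℤ) : ℂ) * f j) (Nat.totient k)]
  have hcoeff : ∀ i, (R.map (Int.castRingHom ℂ)).coeff i = ((R.coeff i : ℤ) : ℂ) := by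
    intro i; rw [coeff_map]; rfl
  simp_rw [hcoeff, zero_add]
  -- both sums equal the sum over a common range
  have e1 : ∀ N, Nat.totient k ≤ N →
      ∑ j ∈ range (Nat.totient k), ((R.coeff j : ℤ) : ℂ) * f j
        = ∑ j ∈ range N, ((R.coeff j : ℤ) : ℂ) * f j := by
    intro N hN
    refine Finset.sum_subset (Finset.range_subset_range.mpr hN) ?_
    intro i _ hi
    have : R.coeff i = 0 := by
      apply coeff_eq_zero_of_degree_lt
      refine lt_of_lt_of_le hdeg ?_
      have : Nat.totient k ≤ i := by simpa using hi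
      exact_mod_cast this
    rw [this]; simp
  have e2 : ∀ N, (R.map (Int.castRingHom ℂ)).natDegree + 1 ≤ N →
      ∑ j ∈ range ((R.map (Int.castRingHom ℂ)).natDegree + 1), ((R.coeff j : ℤ) : ℂ) * f j
        = ∑ j ∈ range N, ((R.coeff j : ℤ) : ℂ) * f j := by
    intro N hN
    refine Finset.sum_subset (Finset.range_subset_range.mpr hN) ?_
    intro i _ hi
    have : ((R.coeff i : ℤ) : ℂ) = 0 := by
      rw [← hcoeff]
      apply coeff_eq_zero_of_natDegree_lt
      have : (R.map (Int.castRingHom ℂ)).natDegree + 1 ≤ i := by simpa using hi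
      omega
    rw [this]; simp
  rw [e1 _ (le_max_left _ ((R.map (Int.castRingHom ℂ)).natDegree + 1)),
    e2 _ (le_max_right (Nat.totient k) _)]

lemma expVec_injOn (k : ℕ) (hk : 0 < k) : Set.InjOn (expVec k) (Finset.range k : Finset ℕ) := by
  intro r hr s hs hrs
  have hr' : r < k := by simpa using hr
  have hs' : s < k := by simpa using hs
  have hζ := Complex.isPrimitiveRoot_exp k hk.ne'
  set ζ := Complex.exp (2 * Real.pi * Complex.I / k) with hζdef
  have hf : (aeval E (cyclotomic k ℂ)) (fun r => ζ ^ r) = 0 := by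
    have key : ∀ P : ℂ[X], (aeval E P) (fun r => ζ ^ r) = P.eval ζ • (fun r => ζ ^ r) := by
      intro P
      ext r
      rw [aeval_E, Pi.smul_apply, smul_eq_mul, eval_eq_sum_range, Finset.sum_mul]
      refine Finset.sum_congr rfl ?_
      intro i _
      rw [pow_add]; ring
    rw [key]
    have : (cyclotomic k ℂ).eval ζ = 0 := hζ.isRoot_cyclotomic hk
    rw [this, zero_smul]
  have h1 := functional k _ hf r
  have h2 := functional k _ hf s
  rw [hrs, h2] at h1
  exact (hζ.pow_inj hs' hr' h1).symm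

lemma F_eq (k : ℕ) (hk : 0 < k) (x : Fin (Nat.totient k) → ℂ) :
    F k x = ∑ r ∈ range k, ∏ j, x j ^ (expVec k r j) := by
  unfold F A
  rw [Finset.sum_image (fun a ha b hb h => expVec_injOn k hk (by simpa using ha) (by simpa using hb) h)]

/-- local factor -/
def h (p q i : ℕ) : ℤ := if q = p then 2 * (i : ℤ) - ((p : ℤ) - 1)
  else if i = q - 1 then -((q : ℤ) - 1) else 1

lemma h_sum (p q : ℕ) (hq : q.Prime) : ∑ i ∈ range q, h p q i = 0 := by
  unfold h
  split_ifs with hqp
  · subst hqp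
    rw [Finset.sum_sub_distrib, ← Finset.mul_sum]
    have := Finset.sum_range_id_mul_two q
    have h3 : ((∑ s ∈ Finset.range q, s : ℕ) : ℤ) * 2 = (q : ℤ) * ((q - 1 : ℕ) : ℤ) := by
      exact_mod_cast this
    rw [Nat.cast_sub hq.one_lt.le] at h3
    simp only [Finset.sum_const, Finset.card_range, nsmul_eq_mul]
    push_cast at h3
    linarith
  · obtain ⟨m, rfl⟩ : ∃ m, q = m + 1 := ⟨q - 1, by have := hq.one_lt; omega⟩
    rw [Finset.sum_range_succ]
    have : ∀ i ∈ range m, (if i = m + 1 - 1 then -(((m + 1 : ℕ) : ℤ) - 1) else (1 : ℤ)) = 1 := by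
      intro i hi
      have : i < m := by simpa using hi
      rw [if_neg (by omega)]
    rw [Finset.sum_congr rfl this]
    simp

/-- sum over a complete residue system -/
lemma sum_residues {β : Type} [AddCommMonoid β] (q c s : ℕ) (hq : q.Prime) (hc : Nat.Coprime c q)
    (H : ℕ → β) : ∑ j ∈ range q, H ((s + j * c) % q) = ∑ i ∈ range q, H i := by
  have hinj : Set.InjOn (fun j => (s + j * c) % q) (range q : Finset ℕ) := by
    intro a ha b hb hab
    have ha' : a < q := by simpa using ha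
    have hb' : b < q := by simpa using hb
    have h1 : (s + a * c) ≡ (s + b * c) [MOD q] := hab
    have h2 : a * c ≡ b * c [MOD q] := Nat.ModEq.add_left_cancel' s h1
    have h3 : a ≡ b [MOD q] := Nat.ModEq.cancel_right_of_coprime
      (by rw [Nat.coprime_comm] at hc; exact hc) h2
    have h4 : a % q = b % q := h3
    rwa [Nat.mod_eq_of_lt ha', Nat.mod_eq_of_lt hb'] at h4
  have himg : (range q).image (fun j => (s + j * c) % q) = range q := by
    apply Finset.eq_of_subset_of_card_le
    · intro x hx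
      rw [Finset.mem_image] at hx
      obtain ⟨j, _, rfl⟩ := hx
      exact Finset.mem_range.mpr (Nat.mod_lt _ hq.pos)
    · rw [Finset.card_image_of_injOn hinj]
  rw [← Finset.sum_image (f := H) (g := fun j => (s + j * c) % q)
    (fun a ha b hb h => hinj (by simpa using ha) (by simpa using hb) h), himg]

/-- the integer valued function on exponents -/
def fz (k p n : ℕ) (r : ℕ) : ℤ := ∏ q ∈ k.primeFactors, h p q ((r / n) % q)

lemma fz_shift (k p n q : ℕ) (hn : 0 < n) (hk : n * (∏ q ∈ k.primeFactors, q) = k)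
    (hq : q ∈ k.primeFactors) (r j : ℕ) :
    fz k p n (r + j * (k / q)) = h p q ((r / n + j * ((∏ q ∈ k.primeFactors, q) / q)) % q)
      * ∏ q' ∈ k.primeFactors.erase q, h p q' ((r / n) % q') := by
  have hqp : q.Prime := Nat.prime_of_mem_primeFactors hq
  have hqR : q ∣ ∏ q ∈ k.primeFactors, q := Finset.dvd_prod_of_mem (fun q => q) hq
  obtain ⟨c, hc⟩ := hqR
  have hRc : (∏ q ∈ k.primeFactors, q) / q = c := by
    rw [hc]; exact Nat.mul_div_cancel_left _ hqp.pos
  have hkq : k / q = n * c := by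
    rw [← hk, hc, show n * (q * c) = q * (n * c) by ring]
    exact Nat.mul_div_cancel_left _ hqp.pos
  have hdiv : (r + j * (k / q)) / n = r / n + j * c := by
    rw [hkq, show j * (n * c) = n * (j * c) by ring, Nat.add_mul_div_left _ _ hn]
  unfold fz
  rw [hdiv, hRc, ← Finset.mul_prod_erase _ _ hq]
  congr 1
  refine Finset.prod_congr rfl ?_
  intro q' hq'
  have hne : q' ≠ q := (Finset.mem_erase.mp hq').1
  have hq'k := (Finset.mem_erase.mp hq').2
  have hq'p : q'.Prime := Nat.prime_of_mem_primeFactors hq'k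
  have h1 : q' ∣ q * c := by rw [← hc]; exact Finset.dvd_prod_of_mem (fun q => q) hq'k
  have h2 : q' ∣ c := by
    rcases hq'p.dvd_mul.mp h1 with h | h
    · exact absurd ((Nat.prime_dvd_prime_iff_eq hq'p hqp).mp h) hne
    · exact h
  obtain ⟨c', hc'⟩ := h2
  rw [hc', show j * (q' * c') = q' * (j * c') by ring, Nat.add_mul_mod_self_left]

lemma coprime_div (k q : ℕ) (hq : q ∈ k.primeFactors) :
    Nat.Coprime ((∏ q ∈ k.primeFactors, q) / q) q := by
  have hqp : q.Prime := Nat.prime_of_mem_primeFactors hq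
  rw [← Finset.mul_prod_erase _ (fun q => q) hq, Nat.mul_div_cancel_left _ hqp.pos]
  apply Nat.Coprime.prod_left
  intro q' hq'
  have hne : q' ≠ q := (Finset.mem_erase.mp hq').1
  have hq'p : q'.Prime := Nat.prime_of_mem_primeFactors (Finset.mem_erase.mp hq').2
  exact (Nat.coprime_primes hq'p hqp).mpr hne

lemma fz_line (k p n q : ℕ) (hn : 0 < n) (hk : n * (∏ q ∈ k.primeFactors, q) = k)
    (hq : q ∈ k.primeFactors) (r : ℕ) :
    ∑ j ∈ range q, fz k p n (r + j * (k / q)) = 0 := by
  have hqp : q.Prime := Nat.prime_of_mem_primeFactors hq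
  simp_rw [fz_shift k p n q hn hk hq r]
  rw [← Finset.sum_mul, sum_residues q _ _ hqp (coprime_div k q hq) (fun i => h p q i),
    h_sum p q hqp, zero_mul]

lemma fz_per (k p n : ℕ) (hn : 0 < n) (hk : n * (∏ q ∈ k.primeFactors, q) = k) (r : ℕ) :
    fz k p n (r + k) = fz k p n r := by
  unfold fz
  refine Finset.prod_congr rfl ?_
  intro q hq
  have hdiv : (r + k) / n = r / n + (∏ q ∈ k.primeFactors, q) := by
    conv_lhs => rw [← hk]
    rw [Nat.add_mul_div_left _ _ hn]
  obtain ⟨c, hc⟩ := Finset.dvd_prod_of_mem (fun q : ℕ => q) hq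
  rw [hdiv, hc, Nat.add_mul_mod_self_left]

lemma sum_shift {g : ℕ → ℂ} (k : ℕ) (hg : ∀ r, g (r + k) = g r) (c : ℕ) :
    ∑ r ∈ range k, g (r + c) = ∑ r ∈ range k, g r := by
  induction c with
  | zero => simp
  | succ c ih =>
    rw [← ih]
    have h1 : ∑ r ∈ range (k + 1), g (r + c) = ∑ r ∈ range k, g (r + c) + g (k + c) :=
      Finset.sum_range_succ _ _
    have h2 : ∑ r ∈ range (k + 1), g (r + c) = ∑ r ∈ range k, g (r + 1 + c) + g (0 + c) :=
      Finset.sum_range_succ' _ _
    have h3 : g (k + c) = g (0 + c) := by rw [zero_add, add_comm, hg]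
    have h4 : ∀ r, g (r + (c + 1)) = g (r + 1 + c) := fun r => by congr 1; ring
    simp_rw [h4]
    rw [h2] at h1
    rw [h3] at h1
    exact add_right_cancel h1

lemma G_zero (k n p : ℕ) (hn : 0 < n) (hk : n * (∏ q ∈ k.primeFactors, q) = k)
    (hp : p ∈ k.primeFactors) (hmax : ∀ q ∈ k.primeFactors, q ≤ p) :
    ∑ r ∈ range k, Complex.exp (2 * Real.pi * Complex.I * ((1 : ℝ) / (2 * p) : ℝ) * (fz k p n r : ℂ)) = 0 := by
  have hpp : p.Prime := Nat.prime_of_mem_primeFactors hp
  have hp0 : (p : ℂ) ≠ 0 := by exact_mod_cast hpp.ne_zero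
  set g : ℕ → ℂ := fun r =>
    Complex.exp (2 * Real.pi * Complex.I * ((1 : ℝ) / (2 * p) : ℝ) * (fz k p n r : ℂ)) with hg
  have hgper : ∀ r, g (r + k) = g r := by
    intro r; simp only [hg]; rw [fz_per k p n hn hk]
  have h1 : (p : ℂ) * ∑ r ∈ range k, g r = ∑ j ∈ range p, ∑ r ∈ range k, g (r + j * (k / p)) := by
    simp_rw [fun j => sum_shift k hgper (j * (k / p))]
    simp
  rw [Finset.sum_comm] at h1
  have h2 : ∀ r, ∑ j ∈ range p, g (r + j * (k / p)) = 0 := by
    intro r
    set C : ℤ := ∏ q' ∈ k.primeFactors.erase p, h p q' ((r / n) % q') with hC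
    have hCp : ¬ (p : ℤ) ∣ C := by
      intro hdvd
      rw [hC] at hdvd
      have hpi : Prime (p : ℤ) := Nat.prime_iff_prime_int.mp hpp
      obtain ⟨q', hq', hd⟩ := (hpi.dvd_finsetProd_iff _).mp hdvd
      have hne : q' ≠ p := (Finset.mem_erase.mp hq').1
      have hle : q' ≤ p := hmax q' (Finset.mem_erase.mp hq').2
      have hq'p : q'.Prime := Nat.prime_of_mem_primeFactors (Finset.mem_erase.mp hq').2
      unfold h at hd
      rw [if_neg hne] at hd
      split_ifs at hd
      · rw [dvd_neg] at hd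
        have h3 := Int.le_of_dvd (by have := hq'p.one_lt; omega) hd
        omega
      · have h3 := Int.le_of_dvd (by norm_num) hd
        have := hpp.one_lt
        omega
    simp only [hg]
    simp_rw [fz_shift k p n p hn hk hp r, ← hC]
    rw [sum_residues p _ _ hpp (coprime_div k p hp) (fun i =>
      Complex.exp (2 * Real.pi * Complex.I * ((1 : ℝ) / (2 * p) : ℝ) * ((h p p i * C : ℤ) : ℂ)))]
    have h4 : ∀ i : ℕ, Complex.exp (2 * Real.pi * Complex.I * ((1 : ℝ) / (2 * p) : ℝ) *
        ((h p p i * C : ℤ) : ℂ))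
        = Complex.exp (-(2 * Real.pi * Complex.I * ((1 : ℝ) / (2 * p) : ℝ) * (((p : ℂ) - 1) * C)))
          * (Complex.exp (2 * Real.pi * Complex.I * ((C : ℂ) / p))) ^ i := by
      intro i
      rw [← Complex.exp_nat_mul, ← Complex.exp_add]
      congr 1
      unfold h
      rw [if_pos rfl]
      push_cast
      field_simp
      ring
    simp_rw [h4]
    rw [← Finset.mul_sum]
    have h5 : ∑ i ∈ range p, (Complex.exp (2 * Real.pi * Complex.I * ((C : ℂ) / p))) ^ i = 0 := by
      have h6 := mul_neg_geom_sum (Complex.exp (2 * Real.pi * Complex.I * ((C : ℂ) / p))) p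
      have h7 : (Complex.exp (2 * Real.pi * Complex.I * ((C : ℂ) / p))) ^ p = 1 := by
        rw [← Complex.exp_nat_mul]
        rw [Complex.exp_eq_one_iff]
        refine ⟨C, ?_⟩
        field_simp
      rw [h7, sub_self] at h6
      rcases mul_eq_zero.mp h6 with h8 | h8
      · exfalso
        have h9 : Complex.exp (2 * Real.pi * Complex.I * ((C : ℂ) / p)) = 1 :=
          (sub_eq_zero.mp h8).symm
        rw [Complex.exp_eq_one_iff] at h9
        obtain ⟨m, hm⟩ := h9
        have hpi : (Real.pi : ℂ) ≠ 0 := by exact_mod_cast Real.pi_ne_zero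
        have hI : Complex.I ≠ 0 := Complex.I_ne_zero
        have h10 : (C : ℂ) = m * p := by
          field_simp at hm
          have h11 : (2 * Real.pi * Complex.I : ℂ) ≠ 0 := by simp [hpi]
          linear_combination hm
        have h12 : C = m * p := by exact_mod_cast h10
        exact hCp ⟨m, by rw [h12]; ring⟩
      · exact h8
    rw [h5, mul_zero]
  rw [Finset.sum_congr rfl (fun r _ => h2 r), Finset.sum_const_zero] at h1
  rcases mul_eq_zero.mp h1 with h3 | h3
  · exact absurd h3 hp0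
  · exact h3

/-- The restriction of `F_k` to the curve attached to an integer functional. -/
lemma F_curve (k : ℕ) (hk : 0 < k) (f : ℕ → ℤ)
    (hf : (aeval E (cyclotomic k ℂ)) (fun r => (f r : ℂ)) = 0) (t : ℝ) :
    F k (fun j => Complex.exp (2 * Real.pi * Complex.I * (t : ℝ) * (f j : ℂ)))
      = ∑ r ∈ range k, Complex.exp (2 * Real.pi * Complex.I * (t : ℝ) * (f r : ℂ)) := by
  rw [F_eq k hk]
  refine Finset.sum_congr rfl ?_
  intro r _
  simp_rw [← Complex.exp_int_mul]
  rw [← Complex.exp_sum]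
  congr 1
  rw [← functional k _ hf r, Finset.mul_sum]
  refine Finset.sum_congr rfl ?_
  intro j _
  ring

/-- For every `k ≥ 1` there is a point of the unit torus on the cyclovariety. -/
theorem result (k : ℕ) (hk : 1 ≤ k) :
    ∃ x₀ : ℂ, ∃ x : Fin (Nat.totient k) → ℂ, ‖x₀‖ = 1 ∧ (∀ j, ‖x j‖ = 1) ∧ x₀ + F k x = 0 := by
  have hk0 : 0 < k := hk
  -- it suffices to find a point where `|F_k| = 1`
  suffices hs : ∃ x : Fin (Nat.totient k) → ℂ, (∀ j, ‖x j‖ = 1) ∧ ‖F k x‖ = 1 by
    obtain ⟨x, hx, hF⟩ := hs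
    exact ⟨-F k x, x, by rw [norm_neg, hF], hx, by ring⟩
  have hnorm : ∀ (f : ℕ → ℤ) (t : ℝ) (j : Fin (Nat.totient k)),
      ‖Complex.exp (2 * Real.pi * Complex.I * (t : ℝ) * (f j : ℂ))‖ = 1 := by
    intro f t j
    have : (2 * Real.pi * Complex.I * (t : ℝ) * (f j : ℂ) : ℂ)
        = ((2 * Real.pi * t * f j : ℝ) : ℂ) * Complex.I := by push_cast; ring
    rw [this, Complex.norm_exp_ofReal_mul_I]
  rcases Nat.lt_or_ge 1 k with h1 | h1
  · -- `k ≥ 2`
    have hne : k.primeFactors.Nonempty := Nat.nonempty_primeFactors.mpr h1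
    set p := k.primeFactors.max' hne with hp
    have hpmem : p ∈ k.primeFactors := Finset.max'_mem _ _
    have hmax : ∀ q ∈ k.primeFactors, q ≤ p := fun q hq => Finset.le_max' _ _ hq
    obtain ⟨n, hn⟩ := Nat.prod_primeFactors_dvd k
    have hn' : n * (∏ q ∈ k.primeFactors, q) = k := by rw [mul_comm]; exact hn.symm
    have hn0 : 0 < n := by
      rcases Nat.eq_zero_or_pos n with h | h
      · rw [h, zero_mul] at hn'; omega
      · exact h
    have hf : (aeval E (cyclotomic k ℂ)) (fun r => (fz k p n r : ℂ)) = 0 := by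
      apply cyclotomic_mem k hk0
      · intro r; rw [fz_per k p n hn0 hn']
      · intro q hq hqk r
        have hqm : q ∈ k.primeFactors := Nat.mem_primeFactors.mpr ⟨hq, hqk, hk0.ne'⟩
        have := fz_line k p n q hn0 hn' hqm r
        exact_mod_cast this
    set G : ℝ → ℂ := fun t =>
      ∑ r ∈ range k, Complex.exp (2 * Real.pi * Complex.I * (t : ℝ) * (fz k p n r : ℂ)) with hG
    have hcont : Continuous (fun t => ‖G t‖) := by
      apply Continuous.norm
      apply continuous_finsetSum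
      intro r _
      fun_prop
    have hG0 : ‖G 0‖ = k := by simp [hG]
    have hG1 : ‖G ((1 : ℝ) / (2 * p))‖ = 0 := by
      have := G_zero k n p hn0 hn' hpmem hmax
      rw [norm_eq_zero]
      simp only [hG]
      exact this
    have hmem : (1 : ℝ) ∈ Set.Icc (‖G ((1 : ℝ) / (2 * p))‖) (‖G 0‖) := by
      rw [hG0, hG1]
      exact ⟨zero_le_one, by exact_mod_cast hk⟩
    obtain ⟨t, _, ht⟩ := intermediate_value_uIcc hcont.continuousOn
      (show (1 : ℝ) ∈ Set.uIcc (‖G ((1 : ℝ) / (2 * p))‖) (‖G 0‖) from Set.Icc_subset_uIcc hmem)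
    exact ⟨fun j => Complex.exp (2 * Real.pi * Complex.I * (t : ℝ) * (fz k p n j : ℂ)),
      hnorm _ t, by rw [F_curve k hk0 _ hf]; exact ht⟩
  · have hk1 : k = 1 := by omega
    subst hk1
    refine ⟨fun _ => 1, by simp, ?_⟩
    rw [F_eq 1 hk0]
    simp

end Pool.Agent.Results.MP_086516_nt.TorusPoint
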